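import Mathlib

/-!
# Admissible Banach spaces have modulus of convexity of power type 2

If the modulus of convexity of `X` is not of power type 2 there are unit vectors `x n`, `y n` whose
midpoint is too close to the sphere; on the disjoint balls `B(z n, 1)` we put
`f u = u + (1/4) φ(u - z n)² v`, where `φ` norms `x n - y n` and `v` is the normalized midpoint.
-/

set_option autoImplicit false
open Set Metric Filter Topology

namespace Pool.Agent.Results.MP_122452_an.PowerTypeTwo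

noncomputable section

section defs

variable {X : Type*} [NormedAddCommGroup X] [NormedSpace ℝ X]

/-- `f : U → X` is second order Lipschitz: `‖f(x+h) - 2 f(x) + f(x-h)‖ ≤ K ‖h‖²` whenever
`[x-h, x+h] ⊂ U`. -/
def SecondOrderLipschitz (U : Set X) (f : X → X) : Prop :=
  ∃ K : ℝ, ∀ x h : X, segment ℝ (x - h) (x + h) ⊆ U →
    ‖f (x + h) - (2 : ℝ) • f x + f (x - h)‖ ≤ K * ‖h‖ ^ 2

/-- `f : U → X` is Lipschitz-open -/
def LipschitzOpen (U : Set X) (f : X → X) : Prop :=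
  ∃ c : ℝ, 0 < c ∧ ∀ x ∈ U, ∀ ε : ℝ, 0 < ε → ball x ε ⊆ U → ball (f x) (c * ε) ⊆ f '' ball x ε

/-- `f : U → X` is locally convex -/
def LocallyConvexMap (U : Set X) (f : X → X) : Prop :=
  ∃ c : ℝ, 0 < c ∧ ∀ ε : ℝ, 0 < ε → ε ≤ c → ∀ x ∈ U, ball x ε ⊆ U → Convex ℝ (f '' ball x ε)

variable (X) in
/-- `X` is admissible -/
def Admissible : Prop :=
  ∀ U : Set X, IsOpen U → ∀ f : X → X, LipschitzOpen U f → SecondOrderLipschitz U f →
    LocallyConvexMap U f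

variable (X) in
/-- `X` has modulus of convexity of power type 2: `δ_X(t) ≥ L t²` for all `t ∈ [0, 2]`. -/
def IsPowerTypeTwo : Prop :=
  ∃ L : ℝ, 0 < L ∧ ∀ t : ℝ, 0 ≤ t → t ≤ 2 → ∀ x y : X, ‖x‖ = 1 → ‖y‖ = 1 → t ≤ ‖x - y‖ →
    L * t ^ 2 ≤ 1 - ‖(1 / 2 : ℝ) • (x + y)‖

end defs

variable {X : Type*} [NormedAddCommGroup X] [NormedSpace ℝ X]

/-- the building block -/
def blk (φ : X →L[ℝ] ℝ) (v z u : X) : X := u + ((1 / 4) * (φ (u - z)) ^ 2) • v

lemma blk_second {φ : X →L[ℝ] ℝ} (hφ : ‖φ‖ = 1) {v : X} (hv : ‖v‖ = 1) (z x h : X) :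
    ‖blk φ v z (x + h) - (2 : ℝ) • blk φ v z x + blk φ v z (x - h)‖ ≤ 1 / 2 * ‖h‖ ^ 2 := by
  have e : blk φ v z (x + h) - (2 : ℝ) • blk φ v z x + blk φ v z (x - h) =
      ((1 / 2) * (φ h) ^ 2) • v := by
    unfold blk
    have h1 : φ (x + h - z) = φ (x - z) + φ h := by rw [← map_add]; congr 1; abel
    have h2 : φ (x - h - z) = φ (x - z) - φ h := by rw [← map_sub]; congr 1; abel
    rw [h1, h2]
    module
  rw [e, norm_smul, hv, mul_one, Real.norm_of_nonneg (by positivity)]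
  have h3 : |φ h| ≤ ‖h‖ := by
    have := φ.le_opNorm h
    rwa [hφ, one_mul, Real.norm_eq_abs] at this
  have h4 : (φ h) ^ 2 ≤ ‖h‖ ^ 2 := by
    rw [← sq_abs]
    exact pow_le_pow_left₀ (abs_nonneg _) h3 2
  linarith

lemma blk_approx {φ : X →L[ℝ] ℝ} (hφ : ‖φ‖ = 1) {v : X} (hv : ‖v‖ = 1) (z : X) :
    ApproximatesLinearOn (blk φ v z) (ContinuousLinearMap.id ℝ X) (ball z 1) (1 / 2) := by
  intro x hx y hy
  have e : blk φ v z x - blk φ v z y - (ContinuousLinearMap.id ℝ X) (x - y) =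
      ((1 / 4) * ((φ (x - z) + φ (y - z)) * φ (x - y))) • v := by
    unfold blk
    have h1 : φ (x - y) = φ (x - z) - φ (y - z) := by rw [← map_sub]; congr 1; abel
    rw [h1, ContinuousLinearMap.id_apply]
    module
  have hb : ∀ w : X, |φ w| ≤ ‖w‖ := fun w => by
    have := φ.le_opNorm w
    rwa [hφ, one_mul, Real.norm_eq_abs] at this
  rw [e, norm_smul, hv, mul_one, Real.norm_eq_abs, abs_mul, abs_mul]
  have h1 : |φ (x - z) + φ (y - z)| ≤ 2 := by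
    have a1 := (hb (x - z)).trans (mem_ball_iff_norm.1 hx).le
    have a2 := (hb (y - z)).trans (mem_ball_iff_norm.1 hy).le
    linarith [abs_add_le (φ (x - z)) (φ (y - z))]
  have h2 := hb (x - y)
  have h3 : |φ (x - z) + φ (y - z)| * |φ (x - y)| ≤ 2 * ‖x - y‖ :=
    mul_le_mul h1 h2 (abs_nonneg _) (by norm_num)
  have h4 : |(1 / 4 : ℝ)| = 1 / 4 := abs_of_pos (by norm_num)
  rw [h4]
  have h5 : ((1 / 2 : NNReal) : ℝ) = 1 / 2 := by norm_num
  rw [h5]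
  linarith

lemma blk_open [CompleteSpace X] {φ : X →L[ℝ] ℝ} (hφ : ‖φ‖ = 1) {v : X} (hv : ‖v‖ = 1) (z x : X)
    {ε : ℝ} (hB : ball x ε ⊆ ball z 1) : ball (blk φ v z x) (1 / 2 * ε) ⊆ blk φ v z '' ball x ε := by
  intro w hw
  have hε : 0 < ε := by
    have := (dist_nonneg).trans_lt hw
    linarith
  set ρ : ℝ := 2 * dist w (blk φ v z x) with hρ
  have hρε : ρ < ε := by
    rw [mem_ball] at hw
    linarith
  have hρ0 : 0 ≤ ρ := by positivity
  let R : (ContinuousLinearMap.id ℝ X).NonlinearRightInverse :=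
    { toFun := id, nnnorm := 1, bound' := fun y => by simp, right_inv' := fun y => rfl }
  have h := (blk_approx hφ hv z).surjOn_closedBall_of_nonlinearRightInverse R (ε := ρ) (b := x) hρ0
    ((closedBall_subset_ball hρε).trans hB)
  have hw' : w ∈ closedBall (blk φ v z x) (((R.nnnorm : ℝ)⁻¹ - ((1 / 2 : NNReal) : ℝ)) * ρ) := by
    rw [mem_closedBall]
    show dist w (blk φ v z x) ≤ (((1 : NNReal) : ℝ)⁻¹ - ((1 / 2 : NNReal) : ℝ)) * ρ
    have h5 : (((1 : NNReal) : ℝ)⁻¹ - ((1 / 2 : NNReal) : ℝ)) = 1 / 2 := by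
      push_cast
      norm_num
    rw [h5, hρ]
    linarith
  obtain ⟨u, hu, huw⟩ := h hw'
  exact ⟨u, closedBall_subset_ball hρε hu, huw⟩

/-- the scalar computation -/
lemma scal {a b g κ ρ τ M L s : ℝ} (hρ0 : 0 < ρ) (hρ1 : ρ ≤ 1) (ha1 : |a| ≤ 1) (hb1 : |b| ≤ 1)
    (hg1 : |g| ≤ 1) (hs1' : |s| ≤ 1) (hκ : κ = (1 / 8) * ρ ^ 2 * (a ^ 2 + b ^ 2) - (1 / 4) * s ^ 2)
    (hs : s = ρ * ((a + b) / 2) + κ * g) (hab : a - b = τ) (hL : 1 - M < L * τ ^ 2) :
    0 ≤ κ ∧ ρ + ρ * τ ^ 2 * (ρ / 32 - L) ≤ ρ * M + κ := by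
  have ha2 : a ^ 2 ≤ 1 := by rw [← sq_abs]; exact pow_le_one₀ (abs_nonneg _) ha1
  have hb2 : b ^ 2 ≤ 1 := by rw [← sq_abs]; exact pow_le_one₀ (abs_nonneg _) hb1
  have hu2 : s ^ 2 ≤ 1 := by rw [← sq_abs]; exact pow_le_one₀ (abs_nonneg _) hs1'
  have hρ2 : ρ ^ 2 ≤ 1 := pow_le_one₀ hρ0.le hρ1
  have hprod : ρ ^ 2 * (a ^ 2 + b ^ 2) ≤ 1 * (1 + 1) :=
    mul_le_mul hρ2 (add_le_add ha2 hb2) (add_nonneg (sq_nonneg a) (sq_nonneg b)) zero_le_one
  have hprod0 : 0 ≤ ρ ^ 2 * (a ^ 2 + b ^ 2) :=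
    mul_nonneg (sq_nonneg ρ) (add_nonneg (sq_nonneg a) (sq_nonneg b))
  have hκ1 : |κ| ≤ 1 / 4 := by
    rw [abs_le]
    constructor
    · rw [hκ]; linarith
    · rw [hκ]; linarith [sq_nonneg s]
  -- the quadratic relation for `κ`
  have hq : κ * (1 + (1 / 4) * (ρ * (a + b) * g) + (1 / 4) * (κ * g ^ 2)) = ρ ^ 2 * τ ^ 2 / 16 := by
    have h1 : κ = (1 / 8) * ρ ^ 2 * (a ^ 2 + b ^ 2) - (1 / 4) * (ρ * ((a + b) / 2) + κ * g) ^ 2 := by
      rw [← hs]; exact hκ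
    rw [← hab]
    linear_combination h1
  set Q := 1 + (1 / 4) * (ρ * (a + b) * g) + (1 / 4) * (κ * g ^ 2) with hQ
  have hs1 : |ρ * (a + b) * g| ≤ 2 := by
    rw [abs_mul, abs_mul, abs_of_pos hρ0]
    have h1 : |a + b| ≤ 2 := by linarith [abs_add_le a b]
    calc ρ * |a + b| * |g| ≤ 1 * 2 * 1 := by
          apply mul_le_mul (mul_le_mul hρ1 h1 (abs_nonneg _) zero_le_one) hg1 (abs_nonneg _)
          norm_num
      _ = 2 := by norm_num
  have hs2 : |κ * g ^ 2| ≤ 1 / 4 := by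
    rw [abs_mul, abs_of_nonneg (sq_nonneg g)]
    have h1 : g ^ 2 ≤ 1 := by rw [← sq_abs]; exact pow_le_one₀ (abs_nonneg _) hg1
    calc |κ| * g ^ 2 ≤ 1 / 4 * 1 := mul_le_mul hκ1 h1 (sq_nonneg _) (by norm_num)
      _ = 1 / 4 := by norm_num
  have hQ0 : 0 < Q := by
    have := (abs_le.1 hs1).1
    have := (abs_le.1 hs2).1
    rw [hQ]; linarith
  have hQ2 : Q ≤ 2 := by
    have := (abs_le.1 hs1).2
    have := (abs_le.1 hs2).2
    rw [hQ]; linarith
  have hκpos : 0 ≤ κ := by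
    by_contra hneg
    push Not at hneg
    have h1 : κ * Q < 0 := mul_neg_of_neg_of_pos hneg hQ0
    have h2 : 0 ≤ ρ ^ 2 * τ ^ 2 / 16 := by positivity
    linarith
  refine ⟨hκpos, ?_⟩
  have hκlow : ρ ^ 2 * τ ^ 2 / 32 ≤ κ := by
    have h1 : κ * Q ≤ κ * 2 := mul_le_mul_of_nonneg_left hQ2 hκpos
    linarith
  have h1 : ρ * (1 - M) ≤ ρ * (L * τ ^ 2) := mul_le_mul_of_nonneg_left hL.le hρ0.le
  have h2 : ρ + ρ * τ ^ 2 * (ρ / 32 - L) = ρ - ρ * (L * τ ^ 2) + ρ ^ 2 * τ ^ 2 / 32 := by ring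
  have h3 : ρ * (1 - M) = ρ - ρ * M := by ring
  rw [h2]
  linarith

/-- non-convexity of the image of a small ball -/
lemma blk_not_convex {φ : X →L[ℝ] ℝ} (hφ : ‖φ‖ = 1) {x y : X} (hx : ‖x‖ = 1) (hy : ‖y‖ = 1)
    (hxy : φ (x - y) = ‖x - y‖) {L : ℝ} (hL : 1 - ‖(1 / 2 : ℝ) • (x + y)‖ < L * ‖x - y‖ ^ 2)
    (hL4 : L < 1 / 4) {m : X} (hm : m = (1 / 2 : ℝ) • (x + y)) {v : X} (hv : m = ‖m‖ • v)
    (hv1 : ‖v‖ = 1) {ε : ℝ} (hε : 0 < ε) (hε1 : ε ≤ 1) (hLε : L < ε / 32) (z : X) :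
    ¬ Convex ℝ (blk φ v z '' ball z ε) := by
  intro hconv
  set τ := ‖x - y‖ with hτ
  have hτ0 : 0 ≤ τ := norm_nonneg _
  rw [← hm] at hL
  have hm1 : ‖m‖ ≤ 1 := by
    rw [hm, norm_smul, Real.norm_of_nonneg (by norm_num)]
    linarith [norm_add_le x y]
  have hτpos : 0 < τ := by
    rcases hτ0.eq_or_lt with h | h
    · rw [← h] at hL; norm_num at hL; linarith
    · exact h
  have hb : ∀ w : X, |φ w| ≤ ‖w‖ := fun w => by
    have := φ.le_opNorm w
    rwa [hφ, one_mul, Real.norm_eq_abs] at this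
  -- choose `ρ < ε` close to `ε`
  obtain ⟨ρ, hρ0, hρε, hρ⟩ : ∃ ρ : ℝ, 0 < ρ ∧ ρ < ε ∧ ε < ρ + ρ * τ ^ 2 * (ρ / 32 - L) := by
    have hc : Tendsto (fun ρ : ℝ => ρ + ρ * τ ^ 2 * (ρ / 32 - L)) (𝓝[<] ε)
        (𝓝 (ε + ε * τ ^ 2 * (ε / 32 - L))) := by
      apply Tendsto.mono_left _ nhdsWithin_le_nhds
      apply Continuous.tendsto
      fun_prop
    have hlt : ε < ε + ε * τ ^ 2 * (ε / 32 - L) := by
      have : 0 < ε * τ ^ 2 * (ε / 32 - L) := by
        have : 0 < ε / 32 - L := by linarith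
        positivity
      linarith
    have h1 := hc.eventually (lt_mem_nhds hlt)
    have h2 : ∀ᶠ ρ : ℝ in 𝓝[<] ε, ρ ∈ Ioo 0 ε := Ioo_mem_nhdsLT hε
    obtain ⟨ρ, h3, h4⟩ := (h1.and h2).exists
    exact ⟨ρ, h4.1, h4.2, h3⟩
  have hmem : ∀ w : X, ‖w‖ = 1 → z + ρ • w ∈ ball z ε := by
    intro w hw
    rw [mem_ball_iff_norm, add_sub_cancel_left, norm_smul, hw, mul_one, Real.norm_of_nonneg hρ0.le]
    exact hρε
  have himg : ∀ w : X, blk φ v z (z + ρ • w) = z + ρ • w + ((1 / 4) * (ρ * φ w) ^ 2) • v := by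
    intro w
    unfold blk
    rw [add_sub_cancel_left, map_smul, smul_eq_mul]
  have hmid := hconv (mem_image_of_mem _ (hmem x hx)) (mem_image_of_mem _ (hmem y hy))
    (show (0 : ℝ) ≤ 1 / 2 by norm_num) (show (0 : ℝ) ≤ 1 / 2 by norm_num) (by norm_num)
  obtain ⟨u', hu', huw⟩ := hmid
  set u := u' - z with hu
  have hun : ‖u‖ < ε := mem_ball_iff_norm.1 hu'
  set a := φ x with ha
  set b := φ y with hbdef
  have hab : a - b = τ := by rw [ha, hbdef, ← map_sub, hxy]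
  set κ := (1 / 8) * ρ ^ 2 * (a ^ 2 + b ^ 2) - (1 / 4) * (φ u) ^ 2 with hκ
  have hueq : u = (ρ * ‖m‖ + κ) • v := by
    have h1 : blk φ v z u' = u + z + ((1 / 4) * (φ u) ^ 2) • v := by
      unfold blk
      rw [← hu]
      congr 1
      rw [hu]; abel
    rw [h1, himg, himg, ← ha, ← hbdef] at huw
    have h2 : u = ρ • ((1 / 2 : ℝ) • (x + y)) +
        ((1 / 8) * ρ ^ 2 * (a ^ 2 + b ^ 2) - (1 / 4) * (φ u) ^ 2) • v := by
      calc u = (u + z + ((1 / 4) * (φ u) ^ 2) • v) - z - ((1 / 4) * (φ u) ^ 2) • v := by abel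
        _ = ((1 / 2 : ℝ) • (z + ρ • x + (1 / 4 * (ρ * a) ^ 2) • v) +
            (1 / 2 : ℝ) • (z + ρ • y + (1 / 4 * (ρ * b) ^ 2) • v)) - z -
            ((1 / 4) * (φ u) ^ 2) • v := by rw [huw]
        _ = _ := by module
    rw [← hm, ← hκ] at h2
    calc u = ρ • m + κ • v := h2
      _ = ρ • (‖m‖ • v) + κ • v := by rw [← hv]
      _ = (ρ * ‖m‖ + κ) • v := by rw [smul_smul, ← add_smul]
  set g := φ v with hg
  have hg1 : |g| ≤ 1 := by have := hb v; rwa [hv1] at this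
  have hμ : ‖m‖ * g = (a + b) / 2 := by
    have h1 : φ m = (a + b) / 2 := by
      rw [hm, map_smul, map_add, smul_eq_mul]
      ring
    rw [hv, map_smul, smul_eq_mul] at h1
    exact h1
  have hφu : φ u = ρ * ((a + b) / 2) + κ * g := by
    conv_lhs => rw [hueq]
    rw [map_smul, smul_eq_mul, ← hg, add_mul, mul_assoc, hμ]
  have hφu1 : |φ u| ≤ 1 := (hb u).trans (hun.le.trans hε1)
  have ha1 : |a| ≤ 1 := by have := hb x; rwa [hx] at this
  have hb1 : |b| ≤ 1 := by have := hb y; rwa [hy] at this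
  obtain ⟨hκpos, hfin⟩ := scal hρ0 (hρε.le.trans hε1) ha1 hb1 hg1 hφu1 hκ hφu hab hL
  have hnorm : ‖u‖ = ρ * ‖m‖ + κ := by
    have h0 : 0 ≤ ρ * ‖m‖ + κ := add_nonneg (mul_nonneg hρ0.le (norm_nonneg _)) hκpos
    calc ‖u‖ = ‖(ρ * ‖m‖ + κ) • v‖ := by rw [← hueq]
      _ = ρ * ‖m‖ + κ := by rw [norm_smul, hv1, mul_one, Real.norm_of_nonneg h0]
  linarith

/-- Every admissible Banach space has modulus of convexity of power type 2. -/
theorem result (X : Type*) [NormedAddCommGroup X] [NormedSpace ℝ X] [CompleteSpace X]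
    (h : Admissible X) : IsPowerTypeTwo X := by
  classical
  by_contra hcon
  have hpair : ∀ n : ℕ, ∃ x y : X, ‖x‖ = 1 ∧ ‖y‖ = 1 ∧
      1 - ‖(1 / 2 : ℝ) • (x + y)‖ < (1 / ((n : ℝ) + 5)) * ‖x - y‖ ^ 2 := by
    intro n
    unfold IsPowerTypeTwo at hcon
    push Not at hcon
    obtain ⟨t, ht0, ht2, x, y, hx, hy, hxy, hlt⟩ := hcon (1 / ((n : ℝ) + 5)) (by positivity)
    refine ⟨x, y, hx, hy, hlt.trans_le ?_⟩
    exact mul_le_mul_of_nonneg_left (pow_le_pow_left₀ ht0 hxy 2) (by positivity)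
  choose x y hx hy hxy using hpair
  have hne : ∀ n, x n - y n ≠ 0 := by
    intro n h0
    have := hxy n
    rw [h0, norm_zero] at this
    have h1 : ‖(1 / 2 : ℝ) • (x n + y n)‖ ≤ 1 := by
      rw [norm_smul, Real.norm_of_nonneg (by norm_num)]
      linarith [norm_add_le (x n) (y n), hx n, hy n]
    norm_num at this
    norm_num at h1
    linarith
  have hfun : ∀ n, ∃ φ : X →L[ℝ] ℝ, ‖φ‖ = 1 ∧ φ (x n - y n) = ‖x n - y n‖ := fun n =>
    exists_dual_vector ℝ _ (norm_ne_zero_iff.2 (hne n))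
  choose φ hφ1 hφ2 using hfun
  set m : ℕ → X := fun n => (1 / 2 : ℝ) • (x n + y n) with hm
  have hτ2 : ∀ n, ‖x n - y n‖ ≤ 2 := fun n => by
    have := norm_sub_le (x n) (y n)
    rw [hx, hy] at this
    linarith
  have hm0 : ∀ n, 0 < ‖m n‖ := by
    intro n
    have h1 := hxy n
    have h2 : ‖x n - y n‖ ^ 2 ≤ 4 := by
      have := pow_le_pow_left₀ (norm_nonneg _) (hτ2 n) 2
      linarith
    have h3 : 1 / ((n : ℝ) + 5) ≤ 1 / 5 := by
      apply one_div_le_one_div_of_le (by norm_num)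
      have : (0 : ℝ) ≤ n := Nat.cast_nonneg n
      linarith
    have h4 : (1 / ((n : ℝ) + 5)) * ‖x n - y n‖ ^ 2 ≤ 1 / 5 * 4 :=
      mul_le_mul h3 h2 (by positivity) (by norm_num)
    show 0 < ‖(1 / 2 : ℝ) • (x n + y n)‖
    linarith
  set v : ℕ → X := fun n => (‖m n‖)⁻¹ • m n with hv
  have hv1 : ∀ n, ‖v n‖ = 1 := by
    intro n
    rw [hv]
    simp only
    rw [norm_smul, norm_inv, norm_norm, inv_mul_cancel₀ (hm0 n).ne']
  have hvm : ∀ n, m n = ‖m n‖ • v n := by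
    intro n
    rw [hv]
    simp only
    rw [smul_smul, mul_inv_cancel₀ (hm0 n).ne', one_smul]
  -- the centres
  set z : ℕ → X := fun n => (3 * (n : ℝ)) • x 0 with hz
  have hsep : ∀ n k, n ≠ k → 3 ≤ dist (z n) (z k) := by
    intro n k hnk
    rw [dist_eq_norm]
    have e : z n - z k = (3 * ((n : ℝ) - k)) • x 0 := by
      rw [hz]; simp only; module
    rw [e, norm_smul, hx, mul_one, norm_mul, Real.norm_of_nonneg (by norm_num : (0:ℝ) ≤ 3),
      Real.norm_eq_abs]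
    have : (1 : ℝ) ≤ |(n : ℝ) - k| := by
      have h1 : (1 : ℤ) ≤ |(n : ℤ) - k| := by
        apply Int.one_le_abs
        omega
      have h2 : ((|(n : ℤ) - k| : ℤ) : ℝ) = |(n : ℝ) - k| := by push_cast; rfl
      rw [← h2]
      exact_mod_cast h1
    linarith
  set U : Set X := ⋃ n, ball (z n) 1 with hU
  have huniq : ∀ n k w, w ∈ ball (z n) 1 → w ∈ ball (z k) 1 → n = k := by
    intro n k w h1 h2
    by_contra hnk
    have := hsep n k hnk
    rw [mem_ball] at h1 h2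
    have h3 := dist_triangle_left (z n) (z k) w
    linarith
  let idx : X → ℕ := fun w => if hw : ∃ n, w ∈ ball (z n) 1 then hw.choose else 0
  have hidx : ∀ n w, w ∈ ball (z n) 1 → idx w = n := by
    intro n w hw
    have hex : ∃ n, w ∈ ball (z n) 1 := ⟨n, hw⟩
    have : idx w = hex.choose := dif_pos hex
    rw [this]
    exact huniq _ _ w hex.choose_spec hw
  let f : X → X := fun w => blk (φ (idx w)) (v (idx w)) (z (idx w)) w
  have hf : ∀ n w, w ∈ ball (z n) 1 → f w = blk (φ n) (v n) (z n) w := by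
    intro n w hw
    show blk (φ (idx w)) (v (idx w)) (z (idx w)) w = _
    rw [hidx n w hw]
  -- convex subsets of `U` stay in one ball
  have hcomp : ∀ (S : Set X) (n : ℕ), Convex ℝ S → S ⊆ U → (S ∩ ball (z n) 1).Nonempty →
      S ⊆ ball (z n) 1 := by
    intro S n hS hSU hne'
    set V : Set X := ⋃ k : {k : ℕ // k ≠ n}, ball (z k) 1 with hV
    have hVo : IsOpen V := isOpen_iUnion fun k => isOpen_ball
    have hdis : Disjoint (ball (z n) 1) V := by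
      rw [Set.disjoint_left]
      intro w hw hw'
      rw [hV, mem_iUnion] at hw'
      obtain ⟨k, hk⟩ := hw'
      exact k.2 (huniq _ _ w hk hw)
    have hsub : S ⊆ ball (z n) 1 ∪ V := by
      intro w hw
      obtain ⟨k, hk⟩ := mem_iUnion.1 (hSU hw)
      by_cases hkn : k = n
      · left; rwa [hkn] at hk
      · right
        rw [hV, mem_iUnion]
        exact ⟨⟨k, hkn⟩, hk⟩
    exact hS.isPreconnected.subset_left_of_subset_union isOpen_ball hVo hdis hsub hne'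
  have hUo : IsOpen U := isOpen_iUnion fun n => isOpen_ball
  have hLO : LipschitzOpen U f := by
    refine ⟨1 / 2, by norm_num, fun w hw ε hε hB => ?_⟩
    obtain ⟨n, hn⟩ := mem_iUnion.1 hw
    have hBn : ball w ε ⊆ ball (z n) 1 :=
      hcomp _ n (convex_ball w ε) hB ⟨w, mem_ball_self hε, hn⟩
    have himg : f '' ball w ε = blk (φ n) (v n) (z n) '' ball w ε :=
      image_congr fun w' hw' => hf n w' (hBn hw')
    rw [himg, hf n w hn]
    exact blk_open (hφ1 n) (hv1 n) (z n) w hBn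
  have hSO : SecondOrderLipschitz U f := by
    refine ⟨1 / 2, fun w h' hseg => ?_⟩
    have hw1 : w ∈ segment ℝ (w - h') (w + h') :=
      ⟨1 / 2, 1 / 2, by norm_num, by norm_num, by norm_num, by module⟩
    obtain ⟨n, hn⟩ := mem_iUnion.1 (hseg hw1)
    have hSn := hcomp _ n (convex_segment _ _) hseg ⟨w, hw1, hn⟩
    rw [hf n w hn, hf n _ (hSn (right_mem_segment ℝ _ _)), hf n _ (hSn (left_mem_segment ℝ _ _))]
    exact blk_second (hφ1 n) (hv1 n) (z n) w h'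
  obtain ⟨c, hc, hcv⟩ := h U hUo f hLO hSO
  set ε := min c 1 with hε
  have hε0 : 0 < ε := lt_min hc one_pos
  obtain ⟨n, hn⟩ : ∃ n : ℕ, 1 / ((n : ℝ) + 5) < ε / 32 := by
    obtain ⟨n, hn⟩ := exists_nat_gt (32 / ε)
    refine ⟨n, ?_⟩
    rw [div_lt_div_iff₀ (by positivity) (by norm_num)]
    rw [div_lt_iff₀ hε0] at hn
    nlinarith
  have hBU : ball (z n) ε ⊆ ball (z n) 1 := ball_subset_ball (min_le_right _ _)
  have h1 := hcv ε hε0 (min_le_left _ _) (z n) (mem_iUnion.2 ⟨n, mem_ball_self one_pos⟩)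
    (hBU.trans (subset_iUnion (fun n => ball (z n) 1) n))
  have himg : f '' ball (z n) ε = blk (φ n) (v n) (z n) '' ball (z n) ε :=
    image_congr fun w' hw' => hf n w' (hBU hw')
  rw [himg] at h1
  have hL4 : 1 / ((n : ℝ) + 5) < 1 / 4 := by
    rw [div_lt_div_iff₀ (by positivity) (by norm_num)]
    have : (0 : ℝ) ≤ n := Nat.cast_nonneg n
    linarith
  exact blk_not_convex (hφ1 n) (hx n) (hy n) (hφ2 n) (hxy n) hL4 rfl (hvm n) (hv1 n) hε0
    (min_le_right _ _) hn (z n) h1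

end

end Pool.Agent.Results.MP_122452_an.PowerTypeTwo
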